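import Pool.Agent.H60.T4.NW

/-!
Project TM4 (MP_b6022c_nt): rows N3 (windows above the final window) and N5 (eliminations).
-/

set_option autoImplicit false

namespace Pool.Agent.H20.T4

open Finset Pool.Agent.H9.TC Pool.Agent.H20.TM Pool.Agent.H60.T4

theorem n3 (h0 : M0Stmt) (hg : GStmt) (h2 : W2Stmt) : Pool.Agent.H20.T4.N3Stmt := by
  intro q c L g9 Cf hq1 hc hL
  refine ⟨(4 * 4 ^ (L + g9) + 1) * (4 * 2 ^ (L + g9)) * (1 + 10 + q),
    2 * q * (12 * c + 3 * Cf) + 4 * c + q + (2 * (L + g9) + 1) + 10, ?_⟩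
  intro p hp v uf σ R hv hσ hu hR n hn d e f r hd hr is
  have hp1 : 1 ≤ p := by omega
  have e1 : (60 * q + 60) * p = 60 * (q * p) + 60 * p := by ring
  have e2 : (20 * q + 20) * p = 20 * (q * p) + 20 * p := by ring
  have e8 : (2 * q + 4) * p = 2 * (q * p) + 4 * p := by ring
  have hvp : 2 * p ≤ v := by omega
  have hcard : (univ : Finset (Fin q)).card = q := by
    rw [Finset.card_univ, Fintype.card_fin]
  apply ncom h0 hg q q le_rfl hq1 univ v (2 ^ (v - 2 * p)) L g9 10 (by norm_num) p uf σ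
    (by omega) Nat.one_le_two_pow (nWv v p hp1) (by omega) hL
  · rw [hcard, nW v p hvp, ← pow_mul]
    apply le_of_eq
    congr 1
    ring
  · rw [hcard]
    exact ntail q v p hvp q (Nat.cast_nonneg q)
  · intro K hK hKL t ht htT a ha
    obtain ⟨e', he'⟩ := Nat.exists_eq_add_of_le (show uf + L ≤ v by omega)
    have hK0 : K ≠ 0 := by
      rintro rfl
      exact hKL (dvd_zero _)
    have hs := nsum (univ : Finset (Fin q)) a (2 ^ ((2 * q + 3) * p)) (by positivity) ha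
    have hAs : |∑ i, a i| < 2 ^ e' := by
      have h1 : (q : ℤ) < 2 ^ p := by
        have h2 : q < 2 ^ q := Nat.lt_two_pow_self
        have h3 : 2 ^ q ≤ 2 ^ p := Nat.pow_le_pow_right (by norm_num) (by omega)
        exact_mod_cast lt_of_lt_of_le h2 h3
      calc |∑ i, a i| ≤ q * 2 ^ ((2 * q + 3) * p) := hs
        _ < 2 ^ p * 2 ^ ((2 * q + 3) * p) := by
            apply mul_lt_mul_of_pos_right h1 (by positivity)
        _ = 2 ^ ((2 * q + 4) * p) := by rw [← pow_add]; congr 1; ring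
        _ ≤ 2 ^ e' := pow_le_pow_right₀ (by norm_num) (by omega)
    refine expo h2 hq1 hp he' hσ hu hR hn d e f r hd hr is univ K hK hKL t ht htT a ha ?_
    intro hc'
    have h1 : (∑ i, a i) = 2 ^ e' * (-K) := by linarith
    rw [h1, abs_mul, abs_of_nonneg (by positivity : (0 : ℤ) ≤ 2 ^ e'), abs_neg] at hAs
    have h2 : 1 ≤ |K| := Int.one_le_abs hK0
    have h3 : (0 : ℤ) < 2 ^ e' := by positivity
    nlinarith

/-- The linear case of N5. -/
theorem n5lin {q c L g9 Cf : ℕ} (hq : 1 ≤ q) {p uf σ R : ℕ}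
    (hp : 4 * (12 * c + 3 * Cf) + 4 * c + q + (2 * (L + g9) + 1) + 10 ≤ p)
    (hR : R + 2 * σ + (20 * q + 20) * p ≤ uf) {n : ℤ}
    (d e f r : Fin q → ℤ) (hd : ∀ i, |d i| ≤ Cf) (hr : ∀ i, |r i| ≤ 2 ^ R) (is i' : Fin q)
    (hn : ¬ Bad5 q L g9 p uf σ (del c (d is) (d i') (r is) (r i'))
        (del1 c (d is) (d i') (e is) (e i') (r is) (r i')) n)
    (K : ℤ) (hK : |K| ≤ 2 * 4 ^ (L + g9)) (hKL : ¬ (2 : ℤ) ^ L ∣ K)
    (t : ℤ) (ht : t ≠ 0) (htT : |t| < 2 ^ ((2 * q + 2) * p)) :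
    ‖∑ b ∈ range (2 ^ σ), ee ((t : ℝ) * (((-K : ℤ) : ℝ) * (slo c d e f r n b i' : ℝ) / 2 ^ (uf + L) +
      (K : ℝ) * (slo c d e f r n b is : ℝ) / 2 ^ (uf + L)))‖ ≤
      10 * (1 / 2) ^ ((2 * q + 1) * p) * 2 ^ σ := by
  have e1 : (60 * q + 60) * p = 60 * (q * p) + 60 * p := by ring
  have e2 : (20 * q + 20) * p = 20 * (q * p) + 20 * p := by ring
  have e3 : (2 * q + 2) * p = 2 * (q * p) + 2 * p := by ring
  have e7 : (2 * q + 1) * p = 2 * (q * p) + p := by ring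
  have hp1 : 1 ≤ p := by omega
  have hK1 := nK L g9 K hK
  have hKp : |(K : ℝ)| ≤ 2 ^ p := by
    have h1 : |K| ≤ 2 ^ p := hK1.trans (pow_le_pow_right₀ (by norm_num) (by omega))
    exact_mod_cast h1
  have htr : |(t : ℝ)| ≤ 2 ^ ((2 * q + 2) * p) := by exact_mod_cast htT.le
  set Δ : ℤ := del c (d is) (d i') (r is) (r i') with hΔ
  set Δ1 : ℤ := del1 c (d is) (d i') (e is) (e i') (r is) (r i') with hΔ1
  set z0 : ℝ := (t : ℝ) * K * ((slo c d e f r n 0 is : ℝ) - slo c d e f r n 0 i') / 2 ^ (uf + L)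
    with hz0
  have hexp : ∀ b : ℕ, (t : ℝ) * (((-K : ℤ) : ℝ) * (slo c d e f r n b i' : ℝ) / 2 ^ (uf + L) +
      (K : ℝ) * (slo c d e f r n b is : ℝ) / 2 ^ (uf + L)) =
      (((t * K * (2 * n * Δ + Δ1) : ℤ) : ℝ) / 2 ^ (uf + L) * (b : ℝ) + z0) +
        (t : ℝ) * K * Δ / 2 ^ (uf + L) * (b : ℝ) ^ 2 := by
    intro b
    rw [hz0, hΔ, hΔ1]
    simp only [slo, dqua, del, del1]
    push_cast
    field_simp
    ring
  simp only [hexp]
  have hquad : ∀ b : ℕ, b < 2 ^ σ → |(t : ℝ) * K * Δ / 2 ^ (uf + L) * (b : ℝ) ^ 2| ≤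
      (1 / 2) ^ ((2 * q + 1) * p) := by
    intro b hb
    have hbr : (b : ℝ) ≤ 2 ^ σ := by exact_mod_cast hb.le
    have hΔr : |(Δ : ℝ)| ≤ 2 ^ p * 2 ^ R := by
      have a1 : |(r is : ℝ)| ≤ 2 ^ R := by exact_mod_cast hr is
      have a2 : |(r i' : ℝ)| ≤ 2 ^ R := by exact_mod_cast hr i'
      have a3 : |(d is : ℝ)| ≤ Cf := by exact_mod_cast hd is
      have a4 : |(d i' : ℝ)| ≤ Cf := by exact_mod_cast hd i'
      have a5 : (1 : ℝ) ≤ 2 ^ R := one_le_pow₀ (by norm_num)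
      have a6 : (2 : ℝ) * (12 * c + 3 * Cf) ≤ 2 ^ p := by
        have := le_two_pow (m := 2 * (12 * c + 3 * Cf)) (p := p) (by omega)
        push_cast at this
        exact this
      have a7 : (Δ : ℝ) = 12 * c * (r is - r i') + 3 * (d is - d i') := by
        rw [hΔ]
        simp only [del]
        push_cast
        ring
      have a8 : |(r is : ℝ) - r i'| ≤ 2 * 2 ^ R := (abs_sub _ _).trans (by linarith)
      have a9 : |(d is : ℝ) - d i'| ≤ 2 * Cf * 2 ^ R := by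
        refine (abs_sub _ _).trans ?_
        have : (Cf : ℝ) ≤ Cf * 2 ^ R := le_mul_of_one_le_right (Nat.cast_nonneg _) a5
        linarith
      rw [a7]
      refine (abs_add_le _ _).trans ?_
      rw [abs_mul, abs_mul, abs_mul, abs_of_nonneg (by positivity : (0 : ℝ) ≤ 12),
        abs_of_nonneg (by positivity : (0 : ℝ) ≤ (c : ℝ)), abs_of_nonneg (by positivity : (0 : ℝ) ≤ 3)]
      calc 12 * (c : ℝ) * |(r is : ℝ) - r i'| + 3 * |(d is : ℝ) - d i'|
          ≤ 12 * c * (2 * 2 ^ R) + 3 * (2 * Cf * 2 ^ R) := by gcongr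
        _ = (2 * (12 * c + 3 * Cf)) * 2 ^ R := by ring
        _ ≤ 2 ^ p * 2 ^ R := by gcongr
    rw [abs_mul, abs_div, abs_mul, abs_mul, abs_of_pos (by positivity : (0 : ℝ) < 2 ^ (uf + L)),
      abs_of_nonneg (by positivity : (0 : ℝ) ≤ (b : ℝ) ^ 2)]
    calc |(t : ℝ)| * |(K : ℝ)| * |(Δ : ℝ)| / 2 ^ (uf + L) * (b : ℝ) ^ 2
        ≤ 2 ^ ((2 * q + 2) * p) * 2 ^ p * (2 ^ p * 2 ^ R) / 2 ^ uf * (2 ^ σ) ^ 2 := by
          have h5 : (2 : ℝ) ^ uf ≤ 2 ^ (uf + L) := pow_le_pow_right₀ (by norm_num) (by omega)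
          gcongr
      _ = 2 ^ ((2 * q + 2) * p + p + (p + R) + σ * 2) / 2 ^ uf := by
          rw [pow_add, pow_add, pow_add, pow_add, pow_mul 2 σ 2]
          ring
      _ ≤ (1 / 2) ^ ((2 * q + 1) * p) := by
          rw [one_div_pow, div_le_div_iff₀ (by positivity) (by positivity), one_mul, ← pow_add]
          exact pow_le_pow_right₀ (by norm_num) (by omega)
  refine (sum_pert _ _ (2 ^ σ) _ hquad).trans ?_
  -- the linear sum
  have hθ : 2 ^ ((2 * q + 2) * p) / 2 ^ σ ≤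
      nn (((t * K * (2 * n * Δ + Δ1) : ℤ) : ℝ) / 2 ^ (uf + L)) := by
    have key : ∀ x : ℤ, ¬ small (uf + L) ((2 : ℤ) ^ (uf + L + (2 * q + 2) * p - σ)) x →
        2 ^ ((2 * q + 2) * p) / 2 ^ σ ≤ nn ((x : ℝ) / 2 ^ (uf + L)) := by
      intro x hx
      have h6 := nn_of_not_small hx
      push_cast at h6
      have h7 : (2 : ℝ) ^ (uf + L + (2 * q + 2) * p - σ) * 2 ^ σ =
          2 ^ (uf + L) * 2 ^ ((2 * q + 2) * p) := by
        rw [← pow_add, ← pow_add]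
        congr 1
        omega
      rw [div_le_iff₀ (by positivity)]
      have h8 : (0 : ℝ) < 2 ^ (uf + L) := by positivity
      have h9 : (0 : ℝ) < 2 ^ σ := by positivity
      have h10 := mul_le_mul_of_nonneg_right h6 h9.le
      rw [h7] at h10
      have h11 : 2 ^ (uf + L) * 2 ^ ((2 * q + 2) * p) ≤
          2 ^ (uf + L) * (nn ((x : ℝ) / 2 ^ (uf + L)) * 2 ^ σ) := by
        linarith
      exact le_of_mul_le_mul_left h11 h8
    rcases lt_or_gt_of_ne ht with htn | htp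
    · obtain ⟨t', rfl⟩ : ∃ t' : ℕ, t = -(t' : ℤ) := ⟨t.natAbs, by omega⟩
      have h12 : ¬ small (uf + L) ((2 : ℤ) ^ (uf + L + (2 * q + 2) * p - σ))
          (t' * (-K) * (2 * n * Δ + Δ1)) := by
        intro hs
        apply hn
        refine ⟨t', -K, by omega, ?_, by rwa [abs_neg], by rwa [Int.dvd_neg], hs⟩
        rw [abs_neg, Nat.abs_cast] at htT
        exact_mod_cast htT
      have h14 := key _ h12
      have h15 : ((t' * (-K) * (2 * n * Δ + Δ1) : ℤ) : ℝ) / 2 ^ (uf + L) =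
          ((-(t' : ℤ) * K * (2 * n * Δ + Δ1) : ℤ) : ℝ) / 2 ^ (uf + L) := by
        congr 2
        ring
      rwa [h15] at h14
    · obtain ⟨t', rfl⟩ : ∃ t' : ℕ, t = (t' : ℤ) := ⟨t.natAbs, by omega⟩
      apply key
      intro hs
      apply hn
      refine ⟨t', K, by omega, ?_, hK, hKL, hs⟩
      rw [Nat.abs_cast] at htT
      exact_mod_cast htT
  have hlin := lin_sum_le (2 ^ σ) (((t * K * (2 * n * Δ + Δ1) : ℤ) : ℝ) / 2 ^ (uf + L)) z0
  have hfin : ‖∑ b ∈ range (2 ^ σ), ee (((t * K * (2 * n * Δ + Δ1) : ℤ) : ℝ) / 2 ^ (uf + L) *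
      (b : ℝ) + z0)‖ ≤ (1 / 2) ^ ((2 * q + 1) * p) * 2 ^ σ := by
    set Z : ℝ := ‖∑ b ∈ range (2 ^ σ), ee (((t * K * (2 * n * Δ + Δ1) : ℤ) : ℝ) / 2 ^ (uf + L) *
      (b : ℝ) + z0)‖ with hZ
    have hZ0 : 0 ≤ Z := norm_nonneg _
    have h16 : Z * (2 * (2 ^ ((2 * q + 2) * p) / 2 ^ σ)) ≤ 1 := by
      refine le_trans ?_ hlin
      gcongr
    have h17 : Z * 2 ^ ((2 * q + 2) * p) ≤ 2 ^ σ := by
      have h18 : Z * (2 * (2 ^ ((2 * q + 2) * p) / 2 ^ σ)) * 2 ^ σ ≤ 1 * 2 ^ σ :=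
        mul_le_mul_of_nonneg_right h16 (by positivity)
      have h19 : Z * (2 * (2 ^ ((2 * q + 2) * p) / 2 ^ σ)) * 2 ^ σ =
          2 * (Z * 2 ^ ((2 * q + 2) * p)) := by
        field_simp
      have h20 : 0 ≤ Z * 2 ^ ((2 * q + 2) * p) := by positivity
      linarith
    rw [one_div_pow, one_div_mul_eq_div, le_div_iff₀ (by positivity)]
    refine le_trans ?_ h17
    gcongr
    · norm_num
    · omega
  have hpos : 0 ≤ (1 / 2 : ℝ) ^ ((2 * q + 1) * p) * 2 ^ σ := by positivity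
  push_cast at hfin ⊢
  linarith

theorem n5 (h0 : M0Stmt) (hg : GStmt) (h2 : W2Stmt) : Pool.Agent.H20.T4.N5Stmt := by
  intro q c L g9 Cf hq1 hc hL
  refine ⟨(4 * 4 ^ (L + g9) + 1) * (4 * 2 ^ (L + g9)) * (1 + 10 + q),
    2 * q * (12 * c + 3 * Cf) + 4 * (12 * c + 3 * Cf) + 4 * c + q + (2 * (L + g9) + 1) + 10, ?_⟩
  intro p hp uf σ R hσ hu hR n hn d e f r hd hr is i' hne hn5
  have hp1 : 1 ≤ p := by omega
  have e1 : (60 * q + 60) * p = 60 * (q * p) + 60 * p := by ring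
  have e2 : (20 * q + 20) * p = 20 * (q * p) + 20 * p := by ring
  have hvp : 2 * p ≤ uf + L := by omega
  have hqp : p ≤ q * p := Nat.le_mul_of_pos_left p (by omega)
  apply ncom h0 hg q q le_rfl hq1 {i'} (uf + L) (2 ^ (uf + L - 2 * p)) L g9 10 (by norm_num) p uf σ
    (by omega) Nat.one_le_two_pow (nWv (uf + L) p hp1) (by omega) hL
  · rw [Finset.card_singleton, nW (uf + L) p hvp, pow_one]
    apply pow_le_pow_of_le_one (by norm_num) (by norm_num)
    nlinarith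
  · rw [Finset.card_singleton, Nat.cast_one]
    refine (ntail q (uf + L) p hvp 1 zero_le_one).trans ?_
    have hq1' : (1 : ℝ) ≤ q := by exact_mod_cast hq1
    gcongr
  · intro K hK hKL t ht htT a ha
    by_cases hN : a i' + K = 0
    · have h5 : a i' = -K := by omega
      have h6 := n5lin (c := c) (Cf := Cf) hq1 (by omega) hR d e f r hd hr is i' hn5 K hK hKL t ht
        htT
      simp only [Finset.sum_singleton, h5]
      exact h6
    · refine expo (e' := 0) h2 hq1 (by omega) rfl hσ hu (by omega) hn d e f r hd hr is {i'} K hK hKL t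
        ht htT a ha ?_
      rw [Finset.sum_singleton]
      simpa using hN

end Pool.Agent.H20.T4
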