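import Pool.Agent.H20.T4.Stm
import Pool.Agent.H9.TC.NCom

/-!
Project TM4 (MP_b6022c_nt): common part of the rows N3 and N5 (exponential sums of directions,
from the quadratic Weyl bound (W2) and the absence of `Bad3`).
-/

set_option autoImplicit false

namespace Pool.Agent.H60.T4

open Finset Pool.Agent.H9.TC Pool.Agent.H20.TM Pool.Agent.H20.T4

theorem ee_lip (x y : ℝ) : ‖ee (x + y) - ee x‖ ≤ 7 * |y| := by
  have h1 : ee (x + y) - ee x = ee x * (ee y - 1) := by rw [f2_ee_add]; ring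
  rw [h1, norm_mul, f2_norm_ee, one_mul, f2_sin]
  have h2 : |Real.sin (Real.pi * y)| ≤ |Real.pi * y| := Real.abs_sin_le_abs
  rw [abs_mul, abs_of_pos Real.pi_pos] at h2
  have h3 : Real.pi < 3.15 := Real.pi_lt_d2
  have h4 : Real.pi * |y| ≤ 3.15 * |y| := mul_le_mul_of_nonneg_right h3.le (abs_nonneg y)
  have h5 : 0 ≤ |y| := abs_nonneg y
  linarith

/-- a small change of the phases -/
theorem sum_pert (F G : ℕ → ℝ) (N : ℕ) (δ : ℝ) (h : ∀ n < N, |G n| ≤ δ) :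
    ‖∑ n ∈ range N, ee (F n + G n)‖ ≤ ‖∑ n ∈ range N, ee (F n)‖ + 7 * δ * N := by
  have h1 : ∑ n ∈ range N, ee (F n + G n) =
      ∑ n ∈ range N, ee (F n) + ∑ n ∈ range N, (ee (F n + G n) - ee (F n)) := by
    rw [← sum_add_distrib]
    refine sum_congr rfl fun n _ => ?_
    ring
  rw [h1]
  refine (norm_add_le _ _).trans (add_le_add le_rfl ?_)
  refine (norm_sum_le _ _).trans ?_
  calc ∑ n ∈ range N, ‖ee (F n + G n) - ee (F n)‖ ≤ ∑ _n ∈ range N, 7 * δ := by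
        refine sum_le_sum fun n hn => ?_
        have h2 := h n (mem_range.1 hn)
        have h3 := ee_lip (F n) (G n)
        linarith
    _ = 7 * δ * N := by rw [sum_const, card_range, nsmul_eq_mul]; ring

/-- not small modulo `2^v`: distance to the integers -/
theorem nn_of_not_small {v : ℕ} {D x : ℤ} (h : ¬ small v D x) :
    (D : ℝ) ≤ nn ((x : ℝ) / 2 ^ v) * 2 ^ v := by
  by_contra hcon
  push Not at hcon
  apply h
  refine ⟨x - round ((x : ℝ) / 2 ^ v) * 2 ^ v, ?_, ⟨round ((x : ℝ) / 2 ^ v), by ring⟩⟩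
  have h1 : ((x - round ((x : ℝ) / 2 ^ v) * 2 ^ v : ℤ) : ℝ) =
      ((x : ℝ) / 2 ^ v - round ((x : ℝ) / 2 ^ v)) * 2 ^ v := by
    push_cast
    have : (2 : ℝ) ^ v ≠ 0 := by positivity
    field_simp
  have h2 : |((x - round ((x : ℝ) / 2 ^ v) * 2 ^ v : ℤ) : ℝ)| = nn ((x : ℝ) / 2 ^ v) * 2 ^ v := by
    rw [h1, abs_mul, abs_of_pos (by positivity : (0 : ℝ) < 2 ^ v)]
    rfl
  have h3 : |((x - round ((x : ℝ) / 2 ^ v) * 2 ^ v : ℤ) : ℝ)| ≤ (D : ℝ) := by
    rw [h2]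
    exact hcon.le
  exact_mod_cast h3

/-- the quadratic Weyl bound with the parameters of the rows -/
theorem weyl2 (h2 : W2Stmt) (q p σ : ℕ) (t2 t1 t0 : ℝ) (hσ : (8 * q + 6) * p ≤ σ)
    (hk : ∀ k : ℕ, 1 ≤ k → k < 2 ^ ((4 * q + 3) * p) →
      1 / 2 * (2 ^ ((4 * q + 4) * p) / 2 ^ σ) ≤ nn (2 * k * t2)) :
    ‖∑ n ∈ range (2 ^ σ), ee (t2 * (n : ℝ) ^ 2 + t1 * n + t0)‖ ≤
      3 * (1 / 2) ^ ((2 * q + 1) * p) * 2 ^ σ := by
  have key := h2 t2 t1 t0 (2 ^ σ) (2 ^ ((4 * q + 3) * p)) 1 (1 / 2 * (2 ^ ((4 * q + 4) * p) / 2 ^ σ))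
    Nat.one_le_two_pow Nat.one_le_two_pow le_rfl (by positivity) hk (2 ^ σ) le_rfl
  push_cast at key
  set y : ℝ := (1 / 2) ^ ((4 * q + 2) * p) with hy
  have hy0 : 0 < y := by positivity
  have e1 : 1 / (1 / 2 * (2 ^ ((4 * q + 4) * p) / 2 ^ σ) * (2 : ℝ) ^ σ) ≤ 2 * y := by
    have a1 : 1 / (1 / 2 * (2 ^ ((4 * q + 4) * p) / 2 ^ σ) * (2 : ℝ) ^ σ) =
        2 * (1 / 2) ^ ((4 * q + 4) * p) := by
      rw [one_div_pow]
      field_simp
    rw [a1, hy]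
    have a2 : (1 / 2 : ℝ) ^ ((4 * q + 4) * p) ≤ (1 / 2) ^ ((4 * q + 2) * p) :=
      pow_le_pow_of_le_one (by norm_num) (by norm_num) (Nat.mul_le_mul_right _ (by omega))
    linarith
  have e2 : 6 * (1 : ℝ) / 2 ^ ((4 * q + 3) * p) ≤ 6 * y := by
    have a1 : 6 * (1 : ℝ) / 2 ^ ((4 * q + 3) * p) = 6 * (1 / 2) ^ ((4 * q + 3) * p) := by
      rw [one_div_pow]
      ring
    rw [a1, hy]
    have a2 : (1 / 2 : ℝ) ^ ((4 * q + 3) * p) ≤ (1 / 2) ^ ((4 * q + 2) * p) :=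
      pow_le_pow_of_le_one (by norm_num) (by norm_num) (Nat.mul_le_mul_right _ (by omega))
    linarith
  have e3 : (2 : ℝ) ^ ((4 * q + 3) * p) / 2 ^ σ ≤ y := by
    rw [hy, one_div_pow, div_le_div_iff₀ (by positivity) (by positivity), one_mul, ← pow_add]
    apply pow_le_pow_right₀ (by norm_num)
    have : (4 * q + 3) * p + (4 * q + 2) * p ≤ (8 * q + 6) * p := by
      rw [← Nat.add_mul]
      exact Nat.mul_le_mul_right _ (by omega)
    omega
  have h7 : ‖∑ n ∈ range (2 ^ σ), ee (t2 * (n : ℝ) ^ 2 + t1 * n + t0)‖ ^ 2 ≤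
      (3 * (1 / 2) ^ ((2 * q + 1) * p) * 2 ^ σ) ^ 2 := by
    refine key.trans ?_
    calc ((2 : ℝ) ^ σ) ^ 2 * (1 / (1 / 2 * (2 ^ ((4 * q + 4) * p) / 2 ^ σ) * (2 : ℝ) ^ σ) +
          6 * (1 : ℝ) / 2 ^ ((4 * q + 3) * p) + (2 : ℝ) ^ ((4 * q + 3) * p) / 2 ^ σ)
        ≤ ((2 : ℝ) ^ σ) ^ 2 * (9 * y) := by
          apply mul_le_mul_of_nonneg_left _ (by positivity)
          linarith
      _ = (3 * (1 / 2) ^ ((2 * q + 1) * p) * 2 ^ σ) ^ 2 := by
          have e4 : y = ((1 / 2 : ℝ) ^ ((2 * q + 1) * p)) ^ 2 := by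
            rw [hy, ← pow_mul]
            congr 1
            ring
          rw [e4]
          ring
  exact (pow_le_pow_iff_left₀ (norm_nonneg _) (by positivity) two_ne_zero).1 h7

/-- the polynomial expansion of the phases -/
theorem phase_poly {q : ℕ} (S : Finset (Fin q)) (c3 V κ t : ℝ) (a b2 b1 b0 σ : Fin q → ℝ)
    (is : Fin q) (s : ℝ) (hσ : ∀ i, σ i = c3 * s ^ 3 + b2 i * s ^ 2 + b1 i * s + b0 i) :
    t * ((∑ i ∈ S, a i * σ i) / V + κ * σ is) =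
      (t * ((∑ i ∈ S, a i * b2 i) / V + κ * b2 is)) * s ^ 2 +
      (t * ((∑ i ∈ S, a i * b1 i) / V + κ * b1 is)) * s +
      t * ((∑ i ∈ S, a i * b0 i) / V + κ * b0 is) +
      (t * c3 * ((∑ i ∈ S, a i) / V + κ)) * s ^ 3 := by
  have h1 : ∑ i ∈ S, a i * σ i = (∑ i ∈ S, a i) * (c3 * s ^ 3) + (∑ i ∈ S, a i * b2 i) * s ^ 2 +
      (∑ i ∈ S, a i * b1 i) * s + ∑ i ∈ S, a i * b0 i := by
    rw [Finset.sum_mul, Finset.sum_mul, Finset.sum_mul, ← Finset.sum_add_distrib,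
      ← Finset.sum_add_distrib, ← Finset.sum_add_distrib]
    apply Finset.sum_congr rfl
    intro i _
    rw [hσ]
    ring
  rw [h1, hσ]
  ring

theorem le_two_pow {m p : ℕ} (h : m ≤ p) : (m : ℝ) ≤ 2 ^ p := by
  have h1 : m < 2 ^ m := Nat.lt_two_pow_self
  have h2 : 2 ^ m ≤ 2 ^ p := Nat.pow_le_pow_right (by norm_num) h
  exact_mod_cast h1.le.trans h2

/-- Bound for the exponential sums when `As + 2^e K ≠ 0`. -/
theorem expo (h2 : W2Stmt) {q c L g9 Cf : ℕ} (hq : 1 ≤ q) {p v uf σ R e' : ℕ}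
    (hp : 2 * q * (12 * c + 3 * Cf) + 4 * c + q + (2 * (L + g9) + 1) + 10 ≤ p)
    (hv : v = uf + L + e')
    (hσ : (60 * q + 60) * p ≤ σ) (hu : 3 * σ + (60 * q + 60) * p ≤ uf)
    (hR : R + σ + (20 * q + 20) * p ≤ uf) {n : ℤ} (hn : ¬ Bad3 q c L g9 p v uf σ n)
    (d e f r : Fin q → ℤ) (hd : ∀ i, |d i| ≤ Cf) (hr : ∀ i, |r i| ≤ 2 ^ R) (is : Fin q)
    (S : Finset (Fin q)) (K : ℤ) (hK : |K| ≤ 2 * 4 ^ (L + g9)) (hKL : ¬ (2 : ℤ) ^ L ∣ K)
    (t : ℤ) (ht : t ≠ 0) (htT : |t| < 2 ^ ((2 * q + 2) * p)) (a : Fin q → ℤ)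
    (ha : ∀ i ∈ S, |a i| ≤ 2 ^ ((2 * q + 3) * p)) (hne : (∑ i ∈ S, a i) + 2 ^ e' * K ≠ 0) :
    ‖∑ b ∈ range (2 ^ σ), ee ((t : ℝ) * ((∑ i ∈ S, (a i : ℝ) * (slo c d e f r n b i : ℝ)) / 2 ^ v +
      (K : ℝ) * (slo c d e f r n b is : ℝ) / 2 ^ (uf + L)))‖ ≤
      10 * (1 / 2) ^ ((2 * q + 1) * p) * 2 ^ σ := by
  have e1 : (60 * q + 60) * p = 60 * (q * p) + 60 * p := by ring
  have e2 : (20 * q + 20) * p = 20 * (q * p) + 20 * p := by ring
  have e3 : (2 * q + 2) * p = 2 * (q * p) + 2 * p := by ring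
  have e4 : (4 * q + 3) * p = 4 * (q * p) + 3 * p := by ring
  have e5 : (4 * q + 4) * p = 4 * (q * p) + 4 * p := by ring
  have e6 : (2 * q + 3) * p = 2 * (q * p) + 3 * p := by ring
  have e7 : (2 * q + 1) * p = 2 * (q * p) + p := by ring
  have e8 : (2 * q + 4) * p = 2 * (q * p) + 4 * p := by ring
  have e9 : (8 * q + 6) * p = 8 * (q * p) + 6 * p := by ring
  have hp1 : 1 ≤ p := by omega
  have hve : v - (uf + L) = e' := by omega
  -- sizes
  have hAs0 := nsum S a (2 ^ ((2 * q + 3) * p)) (by positivity) ha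
  have hqp : (q : ℤ) ≤ 2 ^ p := by exact_mod_cast le_two_pow (m := q) (p := p) (by omega)
  have hAs : |∑ i ∈ S, a i| ≤ 2 ^ ((2 * q + 4) * p) := by
    refine hAs0.trans ?_
    calc (q : ℤ) * 2 ^ ((2 * q + 3) * p) ≤ 2 ^ p * 2 ^ ((2 * q + 3) * p) := by gcongr
      _ = 2 ^ ((2 * q + 4) * p) := by rw [← pow_add]; congr 1; ring
  have hK1 := nK L g9 K hK
  have hKp : |(K : ℝ)| ≤ 2 ^ p := by
    have h1 : |K| ≤ 2 ^ p := hK1.trans (pow_le_pow_right₀ (by norm_num) (by omega))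
    exact_mod_cast h1
  have htr : |(t : ℝ)| ≤ 2 ^ ((2 * q + 2) * p) := by exact_mod_cast htT.le
  have hAr : |∑ i ∈ S, (a i : ℝ)| ≤ 2 ^ ((2 * q + 4) * p) := by exact_mod_cast hAs
  -- the expansion
  set κ : ℝ := (K : ℝ) / 2 ^ (uf + L) with hκ
  set b2 : Fin q → ℝ := fun i => 12 * c * (n + r i) + 3 * d i with hb2
  set b1 : Fin q → ℝ := fun i => 12 * c * (n + r i) ^ 2 + 6 * d i * (n + r i) + 2 * e i with hb1
  set b0 : Fin q → ℝ := fun i => 4 * c * (n + r i) ^ 3 + 3 * d i * (n + r i) ^ 2 +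
    2 * e i * (n + r i) + f i with hb0
  have hexp : ∀ b : ℕ, (t : ℝ) * ((∑ i ∈ S, (a i : ℝ) * (slo c d e f r n b i : ℝ)) / 2 ^ v +
      (K : ℝ) * (slo c d e f r n b is : ℝ) / 2 ^ (uf + L)) =
      (((t : ℝ) * ((∑ i ∈ S, (a i : ℝ) * b2 i) / 2 ^ v + κ * b2 is)) * (b : ℝ) ^ 2 +
      ((t : ℝ) * ((∑ i ∈ S, (a i : ℝ) * b1 i) / 2 ^ v + κ * b1 is)) * b +
      (t : ℝ) * ((∑ i ∈ S, (a i : ℝ) * b0 i) / 2 ^ v + κ * b0 is)) +
      ((t : ℝ) * (4 * c) * ((∑ i ∈ S, (a i : ℝ)) / 2 ^ v + κ)) * (b : ℝ) ^ 3 := by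
    intro b
    rw [← phase_poly S (4 * c) (2 ^ v) κ t (fun i => (a i : ℝ)) b2 b1 b0
      (fun i => (slo c d e f r n b i : ℝ)) is b (by
        intro i
        simp only [slo, dqua, hb2, hb1, hb0]
        push_cast
        ring)]
    rw [hκ]
    ring
  simp only [hexp]
  -- the cubic term
  have hcub : ∀ b : ℕ, b < 2 ^ σ → |((t : ℝ) * (4 * c) * ((∑ i ∈ S, (a i : ℝ)) / 2 ^ v + κ)) * (b : ℝ) ^ 3| ≤
      (1 / 2) ^ ((2 * q + 1) * p) := by
    intro b hb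
    have hbr : (b : ℝ) ≤ 2 ^ σ := by exact_mod_cast hb.le
    have h3 : |(∑ i ∈ S, (a i : ℝ)) / 2 ^ v + κ| ≤ 2 ^ ((2 * q + 4) * p + 1) / 2 ^ uf := by
      refine (abs_add_le _ _).trans ?_
      have a1 : |(∑ i ∈ S, (a i : ℝ)) / 2 ^ v| ≤ 2 ^ ((2 * q + 4) * p) / 2 ^ uf := by
        rw [abs_div, abs_of_pos (by positivity : (0 : ℝ) < 2 ^ v)]
        apply div_le_div₀ (by positivity) hAr (by positivity)
        exact pow_le_pow_right₀ (by norm_num) (by omega)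
      have a2 : |κ| ≤ 2 ^ ((2 * q + 4) * p) / 2 ^ uf := by
        rw [hκ, abs_div, abs_of_pos (by positivity : (0 : ℝ) < 2 ^ (uf + L))]
        apply div_le_div₀ (by positivity) (hKp.trans ?_) (by positivity)
        · exact pow_le_pow_right₀ (by norm_num) (by omega)
        · exact pow_le_pow_right₀ (by norm_num) (by omega)
      refine (add_le_add a1 a2).trans (le_of_eq ?_)
      rw [pow_succ]
      ring
    have h4 : (4 : ℝ) * c ≤ 2 ^ p := by
      have := le_two_pow (m := 4 * c) (p := p) (by omega)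
      push_cast at this
      exact this
    rw [abs_mul, abs_mul, abs_mul, abs_of_nonneg (by positivity : (0 : ℝ) ≤ 4 * c),
      abs_of_nonneg (by positivity : (0 : ℝ) ≤ (b : ℝ) ^ 3)]
    calc |(t : ℝ)| * (4 * c) * |(∑ i ∈ S, (a i : ℝ)) / 2 ^ v + κ| * (b : ℝ) ^ 3
        ≤ 2 ^ ((2 * q + 2) * p) * 2 ^ p * (2 ^ ((2 * q + 4) * p + 1) / 2 ^ uf) * (2 ^ σ) ^ 3 := by
          gcongr
      _ = 2 ^ ((2 * q + 2) * p + p + ((2 * q + 4) * p + 1) + σ * 3) / 2 ^ uf := by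
          rw [pow_add, pow_add, pow_add, pow_mul 2 σ 3]
          ring
      _ ≤ (1 / 2) ^ ((2 * q + 1) * p) := by
          rw [one_div_pow, div_le_div_iff₀ (by positivity) (by positivity), one_mul, ← pow_add]
          exact pow_le_pow_right₀ (by norm_num) (by omega)
  refine (sum_pert _ _ (2 ^ σ) _ hcub).trans ?_
  have hweyl := weyl2 h2 q p σ ((t : ℝ) * ((∑ i ∈ S, (a i : ℝ) * b2 i) / 2 ^ v + κ * b2 is))
    ((t : ℝ) * ((∑ i ∈ S, (a i : ℝ) * b1 i) / 2 ^ v + κ * b1 is))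
    ((t : ℝ) * ((∑ i ∈ S, (a i : ℝ) * b0 i) / 2 ^ v + κ * b0 is)) (by omega) ?_
  · push_cast
    linarith
  -- the distance to the integers
  intro k hk1 hk2
  set T' : ℝ := 2 ^ ((4 * q + 4) * p) / 2 ^ σ with hT'
  have hkr : (k : ℝ) ≤ 2 ^ ((4 * q + 3) * p) := by exact_mod_cast hk2.le
  have hY : (2 : ℝ) * q * (12 * c + 3 * Cf) ≤ 2 ^ p := by
    have := le_two_pow (m := 2 * q * (12 * c + 3 * Cf)) (p := p) (by omega)
    push_cast at this
    exact this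
  have hrd : ∀ i, |(12 : ℝ) * c * r i + 3 * d i| ≤ (12 * c + 3 * Cf) * 2 ^ R := by
    intro i
    have a1 : |(r i : ℝ)| ≤ 2 ^ R := by exact_mod_cast hr i
    have a2 : |(d i : ℝ)| ≤ Cf := by exact_mod_cast hd i
    have a3 : (1 : ℝ) ≤ 2 ^ R := one_le_pow₀ (by norm_num)
    refine (abs_add_le _ _).trans ?_
    rw [abs_mul, abs_mul, abs_mul, abs_of_nonneg (by positivity : (0 : ℝ) ≤ 12),
      abs_of_nonneg (by positivity : (0 : ℝ) ≤ (c : ℝ)), abs_of_nonneg (by positivity : (0 : ℝ) ≤ 3)]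
    have a4 : (12 : ℝ) * c * |(r i : ℝ)| ≤ 12 * c * 2 ^ R := by gcongr
    have a5 : (3 : ℝ) * |(d i : ℝ)| ≤ 3 * Cf * 2 ^ R := by
      calc (3 : ℝ) * |(d i : ℝ)| ≤ 3 * Cf := by gcongr
        _ = 3 * Cf * 1 := by ring
        _ ≤ 3 * Cf * 2 ^ R := by gcongr
    linarith
  have hsplit : 2 * (k : ℝ) * ((t : ℝ) * ((∑ i ∈ S, (a i : ℝ) * b2 i) / 2 ^ v + κ * b2 is)) =
      ((24 * c * k * t * n * ((∑ i ∈ S, a i) + 2 ^ e' * K) : ℤ) : ℝ) / 2 ^ v +
      (2 * k * t * (∑ i ∈ S, (a i : ℝ) * (12 * c * r i + 3 * d i)) / 2 ^ v +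
        2 * k * t * K * (12 * c * r is + 3 * d is) / 2 ^ (uf + L)) := by
    have h5 : ∑ i ∈ S, (a i : ℝ) * b2 i = (∑ i ∈ S, (a i : ℝ)) * (12 * c * n) +
        ∑ i ∈ S, (a i : ℝ) * (12 * c * r i + 3 * d i) := by
      rw [Finset.sum_mul, ← Finset.sum_add_distrib]
      apply Finset.sum_congr rfl
      intro i _
      simp only [hb2]
      ring
    rw [h5, hκ, hv, pow_add 2 (uf + L) e']
    simp only [hb2]
    push_cast
    field_simp
    ring
  rw [hsplit]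
  -- the main part
  have hmain : T' ≤ nn (((24 * c * k * t * n * ((∑ i ∈ S, a i) + 2 ^ e' * K) : ℤ) : ℝ) / 2 ^ v) := by
    have key : ∀ x : ℤ, ¬ small v ((2 : ℤ) ^ (v + (4 * q + 4) * p - σ)) x →
        T' ≤ nn ((x : ℝ) / 2 ^ v) := by
      intro x hx
      have h6 := nn_of_not_small hx
      push_cast at h6
      have h7 : (2 : ℝ) ^ (v + (4 * q + 4) * p - σ) * 2 ^ σ = 2 ^ v * 2 ^ ((4 * q + 4) * p) := by
        rw [← pow_add, ← pow_add]
        congr 1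
        omega
      rw [hT', div_le_iff₀ (by positivity)]
      have h8 : (0 : ℝ) < 2 ^ v := by positivity
      have h9 : (0 : ℝ) < 2 ^ σ := by positivity
      have h10 := mul_le_mul_of_nonneg_right h6 h9.le
      rw [h7] at h10
      have h11 : 2 ^ v * 2 ^ ((4 * q + 4) * p) ≤ 2 ^ v * (nn ((x : ℝ) / 2 ^ v) * 2 ^ σ) := by
        linarith
      exact le_of_mul_le_mul_left h11 h8
    rcases lt_or_gt_of_ne ht with htn | htp
    · -- negative `t`
      obtain ⟨t', rfl⟩ : ∃ t' : ℕ, t = -(t' : ℤ) := ⟨t.natAbs, by omega⟩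
      have h12 : ¬ small v ((2 : ℤ) ^ (v + (4 * q + 4) * p - σ))
          (24 * c * k * t' * n * (-(∑ i ∈ S, a i) + 2 ^ (v - (uf + L)) * (-K))) := by
        intro hs
        apply hn
        refine ⟨k, t', -(∑ i ∈ S, a i), -K, hk1, hk2, by omega, ?_, by rwa [abs_neg],
          by rwa [abs_neg], by rwa [Int.dvd_neg], ?_, hs⟩
        · rw [abs_neg, Nat.abs_cast] at htT
          exact_mod_cast htT
        · rw [hve]
          intro h13
          apply hne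
          linarith
      have h14 := key _ h12
      rw [hve] at h14
      have h15 : ((24 * c * k * t' * n * (-(∑ i ∈ S, a i) + 2 ^ e' * (-K)) : ℤ) : ℝ) / 2 ^ v =
          ((24 * c * k * (-(t' : ℤ)) * n * ((∑ i ∈ S, a i) + 2 ^ e' * K) : ℤ) : ℝ) / 2 ^ v := by
        congr 2
        ring
      rwa [h15] at h14
    · obtain ⟨t', rfl⟩ : ∃ t' : ℕ, t = (t' : ℤ) := ⟨t.natAbs, by omega⟩
      have h12 : ¬ small v ((2 : ℤ) ^ (v + (4 * q + 4) * p - σ))
          (24 * c * k * t' * n * ((∑ i ∈ S, a i) + 2 ^ (v - (uf + L)) * K)) := by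
        intro hs
        apply hn
        refine ⟨k, t', (∑ i ∈ S, a i), K, hk1, hk2, by omega, ?_, hAs, hK, hKL, ?_, hs⟩
        · rw [Nat.abs_cast] at htT
          exact_mod_cast htT
        · rw [hve]
          exact hne
      have h14 := key _ h12
      rw [hve] at h14
      exact h14
  -- the small parts
  have hP1 : |2 * (k : ℝ) * t * (∑ i ∈ S, (a i : ℝ) * (12 * c * r i + 3 * d i)) / 2 ^ v| ≤
      1 / 4 * T' := by
    have h5 : |∑ i ∈ S, (a i : ℝ) * (12 * c * r i + 3 * d i)| ≤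
        q * (2 ^ ((2 * q + 3) * p) * ((12 * c + 3 * Cf) * 2 ^ R)) := by
      calc |∑ i ∈ S, (a i : ℝ) * (12 * c * r i + 3 * d i)|
          ≤ ∑ i ∈ S, |(a i : ℝ) * (12 * c * r i + 3 * d i)| := Finset.abs_sum_le_sum_abs _ _
        _ ≤ ∑ _i ∈ S, (2 ^ ((2 * q + 3) * p) * ((12 * c + 3 * Cf) * 2 ^ R) : ℝ) := by
            refine Finset.sum_le_sum fun i hi => ?_
            rw [abs_mul]
            have a1 : |(a i : ℝ)| ≤ 2 ^ ((2 * q + 3) * p) := by exact_mod_cast ha i hi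
            exact mul_le_mul a1 (hrd i) (abs_nonneg _) (by positivity)
        _ = S.card * (2 ^ ((2 * q + 3) * p) * ((12 * c + 3 * Cf) * 2 ^ R) : ℝ) := by
            rw [Finset.sum_const, nsmul_eq_mul]
        _ ≤ q * (2 ^ ((2 * q + 3) * p) * ((12 * c + 3 * Cf) * 2 ^ R) : ℝ) := by
            have a2 : S.card ≤ q := by
              have := Finset.card_le_univ S
              rwa [Fintype.card_fin] at this
            have a3 : (S.card : ℝ) ≤ q := by exact_mod_cast a2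
            gcongr
    rw [abs_div, abs_mul, abs_mul, abs_mul, abs_of_pos (by positivity : (0 : ℝ) < 2 ^ v),
      abs_of_nonneg (by positivity : (0 : ℝ) ≤ 2), abs_of_nonneg (by positivity : (0 : ℝ) ≤ (k : ℝ))]
    calc 2 * (k : ℝ) * |(t : ℝ)| * |∑ i ∈ S, (a i : ℝ) * (12 * c * r i + 3 * d i)| / 2 ^ v
        ≤ 2 * 2 ^ ((4 * q + 3) * p) * 2 ^ ((2 * q + 2) * p) *
          (q * (2 ^ ((2 * q + 3) * p) * ((12 * c + 3 * Cf) * 2 ^ R))) / 2 ^ uf := by
          apply div_le_div₀ (by positivity) _ (by positivity)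
            (pow_le_pow_right₀ (by norm_num) (by omega))
          gcongr
      _ = (2 * q * (12 * c + 3 * Cf)) *
          2 ^ ((4 * q + 3) * p + (2 * q + 2) * p + (2 * q + 3) * p + R) / 2 ^ uf := by
          rw [pow_add, pow_add, pow_add]
          ring
      _ ≤ 2 ^ p * 2 ^ ((4 * q + 3) * p + (2 * q + 2) * p + (2 * q + 3) * p + R) / 2 ^ uf := by
          gcongr
      _ ≤ 1 / 4 * T' := by
          rw [hT', ← pow_add, div_le_iff₀ (by positivity)]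
          have h6 : 1 / 4 * ((2 : ℝ) ^ ((4 * q + 4) * p) / 2 ^ σ) * 2 ^ uf =
              2 ^ ((4 * q + 4) * p + (uf - σ - 2)) := by
            have h7 : (2 : ℝ) ^ uf = 2 ^ (uf - σ - 2) * 2 ^ σ * 4 := by
              rw [show (4 : ℝ) = 2 ^ 2 by norm_num, ← pow_add, ← pow_add]
              congr 1
              omega
            rw [h7, pow_add]
            field_simp
          rw [h6]
          exact pow_le_pow_right₀ (by norm_num) (by omega)
  have hP2 : |2 * (k : ℝ) * t * K * (12 * c * r is + 3 * d is) / 2 ^ (uf + L)| ≤ 1 / 4 * T' := by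
    rw [abs_div, abs_mul, abs_mul, abs_mul, abs_mul,
      abs_of_pos (by positivity : (0 : ℝ) < 2 ^ (uf + L)),
      abs_of_nonneg (by positivity : (0 : ℝ) ≤ 2), abs_of_nonneg (by positivity : (0 : ℝ) ≤ (k : ℝ))]
    have hq1 : (1 : ℝ) ≤ q := by exact_mod_cast hq
    calc 2 * (k : ℝ) * |(t : ℝ)| * |(K : ℝ)| * |12 * (c : ℝ) * r is + 3 * d is| / 2 ^ (uf + L)
        ≤ 2 * 2 ^ ((4 * q + 3) * p) * 2 ^ ((2 * q + 2) * p) * 2 ^ p *
          ((q * (12 * c + 3 * Cf)) * 2 ^ R) / 2 ^ uf := by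
          apply div_le_div₀ (by positivity) _ (by positivity)
            (pow_le_pow_right₀ (by norm_num) (by omega))
          have h5 := hrd is
          have h6 : ((12 : ℝ) * c + 3 * Cf) * 2 ^ R ≤ (q * (12 * c + 3 * Cf)) * 2 ^ R := by
            have : (12 : ℝ) * c + 3 * Cf ≤ q * (12 * c + 3 * Cf) := by
              have h7 : (0 : ℝ) ≤ 12 * c + 3 * Cf := by positivity
              nlinarith
            gcongr
          have h8 := h5.trans h6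
          gcongr
      _ = (2 * q * (12 * c + 3 * Cf)) *
          2 ^ ((4 * q + 3) * p + (2 * q + 2) * p + p + R) / 2 ^ uf := by
          rw [pow_add, pow_add, pow_add]
          ring
      _ ≤ 2 ^ p * 2 ^ ((4 * q + 3) * p + (2 * q + 2) * p + p + R) / 2 ^ uf := by
          gcongr
      _ ≤ 1 / 4 * T' := by
          rw [hT', ← pow_add, div_le_iff₀ (by positivity)]
          have h6 : 1 / 4 * ((2 : ℝ) ^ ((4 * q + 4) * p) / 2 ^ σ) * 2 ^ uf =
              2 ^ ((4 * q + 4) * p + (uf - σ - 2)) := by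
            have h7 : (2 : ℝ) ^ uf = 2 ^ (uf - σ - 2) * 2 ^ σ * 4 := by
              rw [show (4 : ℝ) = 2 ^ 2 by norm_num, ← pow_add, ← pow_add]
              congr 1
              omega
            rw [h7, pow_add]
            field_simp
          rw [h6]
          exact pow_le_pow_right₀ (by norm_num) (by omega)
  set X : ℝ := ((24 * c * k * t * n * ((∑ i ∈ S, a i) + 2 ^ e' * K) : ℤ) : ℝ) / 2 ^ v with hX
  set P1 : ℝ := 2 * (k : ℝ) * t * (∑ i ∈ S, (a i : ℝ) * (12 * c * r i + 3 * d i)) / 2 ^ v with hPd1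
  set P2 : ℝ := 2 * (k : ℝ) * t * K * (12 * c * r is + 3 * d is) / 2 ^ (uf + L) with hPd2
  have h20 : nn X ≤ nn (X + (P1 + P2)) + nn (P1 + P2) := by
    have := nn_sub_le (X + (P1 + P2)) (P1 + P2)
    rwa [add_sub_cancel_right] at this
  have h21 := nn_le_abs (P1 + P2)
  have h22 := abs_add_le P1 P2
  linarith

end Pool.Agent.H60.T4
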